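import Pool.Agent.Lib.ALLO.Defs
import Pool.Agent.Lib.TAO.CentreA

/-!
# PROJECT ALL: the subrings of the decomposition field of the centre are local etale

`R` is a local ring dominated by the valuation ring of `v`, integrally closed in its field of
fractions `F`; `N / F` is finite Galois inside `Ω`; `H` is a subgroup of the Galois group containing
the decomposition group of the centre. Then the localisation at the centre of the integral closure
of `R` in `N^H` is `R[θ]` localised at the centre, `θ` a simple root of a monic polynomial.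
-/

set_option autoImplicit false

open Polynomial

namespace Pool.Agent.ALLh64

open Pool.Agent.TAO (OVal VPos ge_of_isIntegral)
open Pool.Agent.LU1 (FracIs fixO mem_fixO)
open Pool.Agent.ALLO (locv icl ICl)

universe u w

variable {k Ω : Type u} [Field k] [Field Ω] [Algebra k Ω]
  {𝕂 : Type w} [Field 𝕂] [LinearOrder 𝕂] [IsStrictOrderedRing 𝕂] {v : OVal 𝕂 Ω}

/-! ## Localisation at the centre -/

theorem mem_locv {S : Subalgebra k Ω} {f : Ω} :
    f ∈ locv v S ↔ ∃ a ∈ S, ∃ b ∈ S, b ≠ 0 ∧ v b = 0 ∧ f = a / b := Iff.rfl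

theorem le_locv (v : OVal 𝕂 Ω) (S : Subalgebra k Ω) : S ≤ locv v S := by
  intro f hf
  exact ⟨f, hf, 1, S.one_mem, one_ne_zero, v.map_one, by rw [div_one]⟩

theorem locv_mono {S T : Subalgebra k Ω} (h : S ≤ T) : locv v S ≤ locv v T := by
  rintro f ⟨a, ha, b, hb, hb0, hvb, rfl⟩
  exact ⟨a, h ha, b, h hb, hb0, hvb, rfl⟩

theorem locv_nonneg {S : Subalgebra k Ω} (hS : ∀ f ∈ S, v.Ge 0 f) {f : Ω} (hf : f ∈ locv v S) :
    v.Ge 0 f := by
  obtain ⟨a, ha, b, hb, hb0, hvb, rfl⟩ := hf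
  intro h0
  have ha0 : a ≠ 0 := by
    rintro rfl
    exact h0 (zero_div _)
  rw [v.map_div ha0 hb0, hvb, sub_zero]
  exact hS a ha ha0

theorem locv_inv {S : Subalgebra k Ω} {f : Ω} (hf : f ∈ locv v S) (h0 : f ≠ 0) (hv : v f = 0) :
    f⁻¹ ∈ locv v S := by
  obtain ⟨a, ha, b, hb, hb0, hvb, rfl⟩ := hf
  have ha0 : a ≠ 0 := by
    rintro rfl
    exact h0 (zero_div _)
  refine ⟨b, hb, a, ha, ha0, ?_, by rw [inv_div]⟩
  rw [v.map_div ha0 hb0, hvb, sub_zero] at hv
  exact hv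

/-- `locv v S` is contained in every subalgebra containing `S` and closed under inverses of
elements of value `0`. -/
theorem locv_le {S T : Subalgebra k Ω} (h : S ≤ T)
    (hT : ∀ f ∈ T, f ≠ 0 → v f = 0 → f⁻¹ ∈ T) : locv v S ≤ T := by
  rintro f ⟨a, ha, b, hb, hb0, hvb, rfl⟩
  rw [div_eq_mul_inv]
  exact T.mul_mem (h ha) (hT b (h hb) hb0 hvb)

theorem locv_locv (S : Subalgebra k Ω) : locv v (locv v S) = locv v S :=
  le_antisymm (locv_le le_rfl fun _ hf h0 hv => locv_inv hf h0 hv) (le_locv v _)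

/-! ## Elements of nonnegative value -/

theorem vpos_or {g : Ω} (hg : v.Ge 0 g) : VPos v g ∨ (g ≠ 0 ∧ v g = 0) := by
  by_cases h0 : g = 0
  · left
    rw [h0]
    exact Pool.Agent.TAO.VPos.zero
  · rcases (hg h0).lt_or_eq with h | h
    · exact Or.inl fun _ => h
    · exact Or.inr ⟨h0, h.symm⟩

theorem not_vpos {g : Ω} (h0 : g ≠ 0) (h : v g = 0) : ¬ VPos v g := fun h1 => by
  have := h1 h0
  rw [h] at this
  exact lt_irrefl _ this

theorem not_vpos_one : ¬ VPos v (1 : Ω) := not_vpos one_ne_zero v.map_one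

/-- The product of elements of value zero. -/
theorem prod_val {ι : Type*} (s : Finset ι) (f : ι → Ω) (hf : ∀ i ∈ s, f i ≠ 0 ∧ v (f i) = 0) :
    ∏ i ∈ s, f i ≠ 0 ∧ v (∏ i ∈ s, f i) = 0 := by
  classical
  induction s using Finset.induction_on with
  | empty => simp [v.map_one]
  | insert i s hi ih =>
    rw [Finset.prod_insert hi]
    have h1 := hf i (Finset.mem_insert_self i s)
    have h2 := ih fun j hj => hf j (Finset.mem_insert_of_mem hj)
    exact ⟨mul_ne_zero h1.1 h2.1, by rw [v.map_mul h1.1 h2.1, h1.2, h2.2, add_zero]⟩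

theorem prod_ge {ι : Type*} (s : Finset ι) (f : ι → Ω) (hf : ∀ i ∈ s, v.Ge 0 (f i)) :
    v.Ge 0 (∏ i ∈ s, f i) := by
  have h := OVal.Ge.prod (v := v) (fun _ => (0 : 𝕂)) s f hf
  rwa [Finset.sum_const_zero] at h

/-- A product of elements of nonnegative value one of which is in the maximal ideal. -/
theorem prod_vpos {ι : Type*} (s : Finset ι) (f : ι → Ω) (hf : ∀ i ∈ s, v.Ge 0 (f i)) {i : ι}
    (hi : i ∈ s) (hv : VPos v (f i)) : VPos v (∏ i ∈ s, f i) := by
  classical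
  rw [← Finset.mul_prod_erase s f hi]
  exact hv.mul (prod_ge _ _ fun j hj => hf j (Finset.mem_of_mem_erase hj))

theorem sum_vpos {ι : Type*} (s : Finset ι) (f : ι → Ω) (hf : ∀ i ∈ s, VPos v (f i)) :
    VPos v (∑ i ∈ s, f i) := by
  classical
  induction s using Finset.induction_on with
  | empty => simpa using Pool.Agent.TAO.VPos.zero
  | insert i s hi ih =>
    rw [Finset.sum_insert hi]
    exact (hf i (Finset.mem_insert_self i s)).add (ih fun j hj => hf j (Finset.mem_insert_of_mem hj))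

/-- A local ring, dominated by the valuation ring of `v`, integrally closed in the field `F`. -/
structure Base (v : OVal 𝕂 Ω) (R : Subalgebra k Ω) (F : IntermediateField k Ω) : Prop where
  le : ∀ f ∈ R, f ∈ F
  nonneg : ∀ f ∈ R, v.Ge 0 f
  loc : ∀ f ∈ R, f ≠ 0 → v f = 0 → f⁻¹ ∈ R
  normal : ∀ f ∈ F, IsIntegral R f → f ∈ R

/-- The elements of `N` integral over `R`. -/
noncomputable def ON (R : Subalgebra k Ω) {F : IntermediateField k Ω} (N : IntermediateField F Ω) :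
    Subalgebra k Ω := icl R (N.restrictScalars k)

section

variable {R : Subalgebra k Ω} {F : IntermediateField k Ω} {N : IntermediateField F Ω}

theorem mem_icl {R : Subalgebra k Ω} {E : IntermediateField k Ω} {g : Ω} :
    g ∈ icl R E ↔ g ∈ E ∧ IsIntegral R g := Iff.rfl

theorem mem_ON {g : Ω} : g ∈ ON R N ↔ IsIntegral R g ∧ g ∈ N :=
  ⟨fun h => ⟨h.2, h.1⟩, fun h => ⟨h.2, h.1⟩⟩

theorem le_ON (hB : Base v R F) {g : Ω} (hg : g ∈ R) : g ∈ ON R N := by
  rw [mem_ON]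
  refine ⟨isIntegral_algebraMap (x := (⟨g, hg⟩ : R)), ?_⟩
  exact (algebraMap F N ⟨g, hB.le g hg⟩).2

theorem ge_int (hnn : ∀ f ∈ R, v.Ge 0 f) {g : Ω} (hg : IsIntegral R g) : v.Ge 0 g :=
  ge_of_isIntegral (fun a => hnn _ a.2) hg

theorem ge_ON (hB : Base v R F) {g : Ω} (hg : g ∈ ON R N) : v.Ge 0 g :=
  ge_int hB.nonneg (mem_ON.1 hg).1

/-- Automorphisms preserve `ON`. -/
theorem aut_ON (hB : Base v R F) (σ : N ≃ₐ[F] N) {a : N} (ha : (a : Ω) ∈ ON R N) :
    (σ a : Ω) ∈ ON R N := by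
  rw [mem_ON] at ha ⊢
  refine ⟨?_, (σ a).2⟩
  obtain ⟨P, hP, hPa⟩ := ha.1
  let φ : R →+* F := ((algebraMap R Ω).codRestrict F.toSubring fun f => hB.le _ f.2)
  have hφ : ∀ f : R, ((φ f : F) : Ω) = (f : Ω) := fun _ => rfl
  have hev : ∀ c : N, ((aeval c (P.map φ) : N) : Ω) = eval₂ (algebraMap R Ω) (c : Ω) P := by
    intro c
    rw [aeval_def, eval₂_map]
    have h1 := hom_eval₂ P ((algebraMap F N).comp φ) (algebraMap N Ω) c
    rw [show ((algebraMap N Ω) : N → Ω) = (Subtype.val) from rfl] at h1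
    exact h1
  refine ⟨P, hP, ?_⟩
  have h3 : aeval (σ a) (P.map φ) = σ (aeval a (P.map φ)) :=
    aeval_algHom_apply σ.toAlgHom a (P.map φ)
  rw [← hev, h3]
  have h2 : aeval a (P.map φ) = 0 := by
    apply Subtype.ext
    rw [hev, hPa]
    rfl
  rw [h2, map_zero]
  rfl

theorem mem_decP (hB : Base v R F) {σ : N ≃ₐ[F] N} :
    σ ∈ ALLO.decP v R F N ↔ ∀ a : N, (a : Ω) ∈ ON R N → (VPos v (a : Ω) ↔ VPos v (σ a : Ω)) := by
  constructor
  · intro h a ha
    exact (h a (mem_ON.1 ha).1).2.2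
  · intro h a ha
    have ha' : (a : Ω) ∈ ON R N := mem_ON.2 ⟨ha, a.2⟩
    exact ⟨(mem_ON.1 (aut_ON hB σ ha')).1, (mem_ON.1 (aut_ON hB σ⁻¹ ha')).1, h a ha'⟩

/-- One of the two implications is enough. -/
theorem mem_decP_of (hB : Base v R F) [FiniteDimensional F N] {σ : N ≃ₐ[F] N}
    (h : ∀ a : N, (a : Ω) ∈ ON R N → VPos v (σ a : Ω) → VPos v (a : Ω)) :
    σ ∈ ALLO.decP v R F N := by
  rw [mem_decP hB]
  intro a ha
  refine ⟨fun hv => ?_, h a ha⟩
  have key : ∀ j : ℕ, VPos v (((σ ^ (j + 1)) a : N) : Ω) → VPos v (σ a : Ω) := by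
    intro j
    induction j with
    | zero => intro h1; rwa [zero_add, pow_one] at h1
    | succ j ih =>
      intro h1
      apply ih
      refine h _ (aut_ON hB _ ha) ?_
      rw [← AlgEquiv.mul_apply, ← pow_succ']
      exact h1
  have hfin : IsOfFinOrder σ := isOfFinOrder_of_finite σ
  have h2 := hfin.orderOf_pos
  apply key (orderOf σ - 1)
  rw [Nat.sub_add_cancel h2, pow_orderOf_eq_one]
  exact hv

theorem coe_prod_N {ι : Type*} (s : Finset ι) (f : ι → N) :
    ((∏ i ∈ s, f i : N) : Ω) = ∏ i ∈ s, (f i : Ω) := by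
  classical
  induction s using Finset.induction_on with
  | empty => simp
  | insert i s hi ih => rw [Finset.prod_insert hi, Finset.prod_insert hi, ← ih]; rfl

theorem coe_sum_N {ι : Type*} (s : Finset ι) (f : ι → N) :
    ((∑ i ∈ s, f i : N) : Ω) = ∑ i ∈ s, (f i : Ω) := by
  classical
  induction s using Finset.induction_on with
  | empty => simp
  | insert i s hi ih => rw [Finset.sum_insert hi, Finset.sum_insert hi, ← ih]; rfl

/-- An element separating the primes. -/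
theorem exists_b (hB : Base v R F) (hk : ∀ c : k, c ≠ 0 → v (algebraMap k Ω c) = 0)
    (hres : ∀ g : Ω, v.Ge 0 g → ∃ c : k, VPos v (g - algebraMap k Ω c))
    [FiniteDimensional F N] :
    ∃ b : N, (b : Ω) ∈ ON R N ∧ VPos v ((b : Ω) - 1) ∧ (∀ s ∈ ALLO.decP v R F N, s b = b) ∧
      ∀ τ, τ ∉ ALLO.decP v R F N → VPos v (τ b : Ω) := by
  classical
  set Dp := ALLO.decP v R F N with hDp
  have hmem : ∀ {s : N ≃ₐ[F] N}, s ∈ Dp → ∀ a : N, (a : Ω) ∈ ON R N →
      (VPos v (a : Ω) ↔ VPos v (s a : Ω)) := fun hs => (mem_decP hB).1 hs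
  have h1 : ∀ τ : N ≃ₐ[F] N, τ ∉ Dp → ∃ a : N, (a : Ω) ∈ ON R N ∧ VPos v (τ a : Ω) ∧
      ¬ VPos v (a : Ω) := by
    intro τ hτ
    by_contra hcon
    push Not at hcon
    exact hτ (mem_decP_of hB hcon)
  choose! a ha1 ha2 ha3 using h1
  set b₀ : N := ∏ τ ∈ Finset.univ.filter (fun τ : N ≃ₐ[F] N => τ ∉ Dp), a τ with hb₀
  have hb₀ON : (b₀ : Ω) ∈ ON R N := by
    rw [hb₀, coe_prod_N]
    exact (ON R N).prod_mem fun τ hτ => ha1 τ (by simpa using hτ)
  have hb₀val : (b₀ : Ω) ≠ 0 ∧ v (b₀ : Ω) = 0 := by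
    rw [hb₀, coe_prod_N]
    refine prod_val _ _ fun τ hτ => ?_
    have hτ' : τ ∉ Dp := by simpa using hτ
    exact (vpos_or (ge_ON hB (ha1 τ hτ'))).resolve_left (ha3 τ hτ')
  have hb₀τ : ∀ τ, τ ∉ Dp → VPos v (τ b₀ : Ω) := by
    intro τ hτ
    rw [hb₀, map_prod, coe_prod_N]
    refine prod_vpos _ _ (fun τ' hτ' => ?_) (i := τ) (by simpa using hτ) (ha2 τ hτ)
    exact ge_ON hB (aut_ON hB τ (ha1 τ' (by simpa using hτ')))
  set b₁ : N := ∏ s ∈ Finset.univ.filter (fun s : N ≃ₐ[F] N => s ∈ Dp), s b₀ with hb₁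
  have hb₁ON : (b₁ : Ω) ∈ ON R N := by
    rw [hb₁, coe_prod_N]
    exact (ON R N).prod_mem fun s _ => aut_ON hB s hb₀ON
  have hb₁val : (b₁ : Ω) ≠ 0 ∧ v (b₁ : Ω) = 0 := by
    rw [hb₁, coe_prod_N]
    refine prod_val _ _ fun s hs => ?_
    have hs' : s ∈ Dp := by simpa using hs
    refine (vpos_or (ge_ON hB (aut_ON hB s hb₀ON))).resolve_left fun h2 => ?_
    exact not_vpos hb₀val.1 hb₀val.2 ((hmem hs' b₀ hb₀ON).2 h2)
  have hb₁τ : ∀ τ, τ ∉ Dp → VPos v (τ b₁ : Ω) := by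
    intro τ hτ
    rw [hb₁, map_prod, coe_prod_N]
    refine prod_vpos _ _ (fun s _ => ge_ON hB (aut_ON hB τ (aut_ON hB s hb₀ON))) (i := 1)
      (by simp) ?_
    exact hb₀τ τ hτ
  have hb₁s : ∀ s ∈ Dp, s b₁ = b₁ := by
    intro s hs
    rw [hb₁, map_prod]
    refine Finset.prod_bij (fun t _ => s * t) ?_ ?_ ?_ ?_
    · intro t ht
      simp only [Finset.mem_filter, Finset.mem_univ, true_and] at ht ⊢
      exact Dp.mul_mem hs ht
    · intro t _ t' _ h2
      exact mul_left_cancel h2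
    · intro t ht
      simp only [Finset.mem_filter, Finset.mem_univ, true_and] at ht
      refine ⟨s⁻¹ * t, ?_, ?_⟩
      · simp only [Finset.mem_filter, Finset.mem_univ, true_and]
        exact Dp.mul_mem (Dp.inv_mem hs) ht
      · rw [mul_inv_cancel_left]
    · intro t _
      rfl
  obtain ⟨c, hc⟩ := hres _ (ge_ON hB hb₁ON)
  have hc0 : c ≠ 0 := by
    rintro rfl
    rw [map_zero, sub_zero] at hc
    exact not_vpos hb₁val.1 hb₁val.2 hc
  set c' : N := algebraMap F N (algebraMap k F c⁻¹) with hc'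
  have hcΩ : (c' : Ω) = algebraMap k Ω c⁻¹ := rfl
  have hcge : v.Ge 0 (algebraMap k Ω c⁻¹) := fun _ => by rw [hk _ (inv_ne_zero hc0)]
  have hcON : (c' : Ω) ∈ ON R N := by
    rw [hcΩ]
    exact (ON R N).algebraMap_mem _
  refine ⟨c' * b₁, ?_, ?_, ?_, ?_⟩
  · exact (ON R N).mul_mem hcON hb₁ON
  · have h2 : ((c' * b₁ : N) : Ω) - 1 = algebraMap k Ω c⁻¹ * ((b₁ : Ω) - algebraMap k Ω c) := by
      have h3 : algebraMap k Ω c⁻¹ * algebraMap k Ω c = 1 := by
        rw [← map_mul, inv_mul_cancel₀ hc0, map_one]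
      rw [mul_sub, h3, ← hcΩ]
      rfl
    rw [h2]
    exact Pool.Agent.TAO.VPos.mul' hcge hc
  · intro s hs
    rw [map_mul, hb₁s s hs, hc', AlgEquiv.commutes]
  · intro τ hτ
    rw [map_mul, hc', AlgEquiv.commutes]
    exact Pool.Agent.TAO.VPos.mul' hcge (hb₁τ τ hτ)

end

/-! ## Sums over cosets -/

section Cosets

variable {R : Subalgebra k Ω} {F : IntermediateField k Ω} {N : IntermediateField F Ω}

/-- Representatives of the cosets of `H`. -/
theorem exists_cosets [FiniteDimensional F N] (H : Subgroup (N ≃ₐ[F] N)) :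
    ∃ (κ : Type u) (_ : Fintype κ) (_ : DecidableEq κ) (rep : κ → (N ≃ₐ[F] N)) (o : κ),
      rep o = 1 ∧ (∀ q, q ≠ o → rep q ∉ H) ∧ ∀ σ : N ≃ₐ[F] N, ∃ π : Equiv.Perm κ,
        ∀ a : N, (∀ s ∈ H, s a = a) → ∀ q, σ (rep q a) = rep (π q) a := by
  classical
  set rep : (N ≃ₐ[F] N) ⧸ H → (N ≃ₐ[F] N) := fun q =>
    if q = QuotientGroup.mk 1 then 1 else q.out with hrep
  have hmk : ∀ q, QuotientGroup.mk (rep q) = q := by
    intro q
    simp only [hrep]
    split_ifs with h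
    · exact h.symm
    · exact Quotient.out_eq q
  refine ⟨(N ≃ₐ[F] N) ⧸ H, Fintype.ofFinite _, Classical.decEq _, rep, QuotientGroup.mk 1, ?_,
    ?_, ?_⟩
  · simp [hrep]
  · intro q hq hmem
    apply hq
    rw [← hmk q, eq_comm, QuotientGroup.eq, inv_one, one_mul]
    exact hmem
  · intro σ
    refine ⟨MulAction.toPerm σ, fun a ha q => ?_⟩
    have hcl : ∀ σ σ' : N ≃ₐ[F] N, (QuotientGroup.mk σ : (N ≃ₐ[F] N) ⧸ H) =
        QuotientGroup.mk σ' → σ a = σ' a := by
      intro σ σ' h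
      rw [QuotientGroup.eq] at h
      have h1 := ha _ h
      rw [AlgEquiv.mul_apply] at h1
      have h2 := congrArg σ h1
      rw [← AlgEquiv.mul_apply, mul_inv_cancel, AlgEquiv.one_apply] at h2
      exact h2.symm
    rw [← AlgEquiv.mul_apply]
    apply hcl
    rw [hmk]
    change _ = σ • q
    conv_rhs => rw [← hmk q]
    rfl

/-- Representatives of `H / D`. -/
theorem exists_relCosets [FiniteDimensional F N] (D H : Subgroup (N ≃ₐ[F] N)) :
    ∃ (κ : Type u) (_ : Fintype κ) (_ : DecidableEq κ) (rep : κ → (N ≃ₐ[F] N)) (o : κ),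
      rep o = 1 ∧ (∀ q, rep q ∈ H) ∧ (∀ q, q ≠ o → rep q ∉ D) ∧ ∀ σ ∈ H, ∃ π : Equiv.Perm κ,
        ∀ a : N, (∀ s ∈ D, s a = a) → ∀ q, σ (rep q a) = rep (π q) a := by
  classical
  set rep : H ⧸ D.subgroupOf H → (N ≃ₐ[F] N) := fun q =>
    if q = QuotientGroup.mk 1 then 1 else ((q.out : H) : N ≃ₐ[F] N) with hrep
  have hrepH : ∀ q, rep q ∈ H := by
    intro q
    simp only [hrep]
    split_ifs
    · exact H.one_mem
    · exact q.out.2
  have hmk : ∀ q, (QuotientGroup.mk (⟨rep q, hrepH q⟩ : H) : H ⧸ D.subgroupOf H) = q := by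
    intro q
    by_cases h : q = QuotientGroup.mk 1
    · have h1 : (⟨rep q, hrepH q⟩ : H) = 1 := by
        apply Subtype.ext
        simp only [hrep]
        rw [if_pos h]
        rfl
      rw [h1]
      exact h.symm
    · have h1 : (⟨rep q, hrepH q⟩ : H) = q.out := by
        apply Subtype.ext
        simp only [hrep]
        rw [if_neg h]
      rw [h1]
      exact Quotient.out_eq q
  refine ⟨H ⧸ D.subgroupOf H, Fintype.ofFinite _, Classical.decEq _, rep, QuotientGroup.mk 1, ?_,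
    hrepH, ?_, ?_⟩
  · simp [hrep]
  · intro q hq hmem
    apply hq
    rw [← hmk q, eq_comm, QuotientGroup.eq, inv_one, one_mul, Subgroup.mem_subgroupOf]
    exact hmem
  · intro σ hσ
    refine ⟨MulAction.toPerm (⟨σ, hσ⟩ : H), fun a ha q => ?_⟩
    have hcl : ∀ σ σ' : H, (QuotientGroup.mk σ : H ⧸ D.subgroupOf H) =
        QuotientGroup.mk σ' → (σ : N ≃ₐ[F] N) a = (σ' : N ≃ₐ[F] N) a := by
      intro σ σ' h
      rw [QuotientGroup.eq, Subgroup.mem_subgroupOf] at h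
      have h1 := ha _ h
      rw [Subgroup.coe_mul, Subgroup.coe_inv, AlgEquiv.mul_apply] at h1
      have h2 := congrArg (σ : N ≃ₐ[F] N) h1
      rw [← AlgEquiv.mul_apply, mul_inv_cancel, AlgEquiv.one_apply] at h2
      exact h2.symm
    have h3 := hcl ((⟨σ, hσ⟩ : H) * ⟨rep q, hrepH q⟩)
      ⟨rep (MulAction.toPerm (⟨σ, hσ⟩ : H) q), hrepH _⟩ (by
        rw [hmk]
        change _ = (⟨σ, hσ⟩ : H) • q
        conv_rhs => rw [← hmk q]
        rfl)
    exact h3

/-- The sum over `H / D` of an element fixed by `D` is fixed by `H`. -/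
theorem sum_fixed {H : Subgroup (N ≃ₐ[F] N)} {κ : Type u} [Fintype κ] {rep : κ → (N ≃ₐ[F] N)}
    {a : N} (h : ∀ σ ∈ H, ∃ π : Equiv.Perm κ, ∀ q, σ (rep q a) = rep (π q) a) :
    ∀ σ ∈ H, σ (∑ q, rep q a) = ∑ q, rep q a := by
  intro σ hσ
  obtain ⟨π, hπ⟩ := h σ hσ
  rw [map_sum]
  exact Fintype.sum_equiv π _ _ fun q => hπ q

/-- An element fixed by `H`, congruent to `1`, whose other conjugates are in the centre. -/
theorem exists_bH (hB : Base v R F) (hk : ∀ c : k, c ≠ 0 → v (algebraMap k Ω c) = 0)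
    (hres : ∀ g : Ω, v.Ge 0 g → ∃ c : k, VPos v (g - algebraMap k Ω c))
    [FiniteDimensional F N] {H : Subgroup (N ≃ₐ[F] N)} (hH : ALLO.decP v R F N ≤ H) :
    ∃ b : N, (b : Ω) ∈ ON R N ∧ VPos v ((b : Ω) - 1) ∧ (∀ s ∈ H, s b = b) ∧
      ∀ τ, τ ∉ H → VPos v (τ b : Ω) := by
  classical
  obtain ⟨b, hbON, hb1, hbs, hbτ⟩ := exists_b (N := N) hB hk hres
  obtain ⟨κ, _, _, rep, o, ho, hrepH, hrep, hπ⟩ := exists_relCosets (ALLO.decP v R F N) H
  refine ⟨∑ q, rep q b, ?_, ?_, ?_, ?_⟩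
  · rw [coe_sum_N]
    exact (ON R N).sum_mem fun q _ => aut_ON hB _ hbON
  · rw [coe_sum_N, ← Finset.add_sum_erase Finset.univ _ (Finset.mem_univ o), ho,
      AlgEquiv.one_apply]
    have h1 : (b : Ω) + ∑ q ∈ Finset.univ.erase o, (rep q b : Ω) - 1 =
        ((b : Ω) - 1) + ∑ q ∈ Finset.univ.erase o, (rep q b : Ω) := by ring
    rw [h1]
    exact hb1.add (sum_vpos _ _ fun q hq => hbτ _ (hrep q (Finset.ne_of_mem_erase hq)))
  · refine sum_fixed fun σ hσ => ?_
    obtain ⟨π, hπσ⟩ := hπ σ hσ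
    exact ⟨π, hπσ b hbs⟩
  · intro τ hτ
    rw [map_sum, coe_sum_N]
    refine sum_vpos _ _ fun q _ => ?_
    rw [← AlgEquiv.mul_apply]
    refine hbτ _ fun h1 => hτ ?_
    have h2 := H.mul_mem (hH h1) (H.inv_mem (hrepH q))
    rwa [mul_inv_cancel_right] at h2

/-! ## Polynomials with invariant coefficients -/

/-- A polynomial over `N` with integral coefficients fixed by the group has coefficients in
`R`. -/
theorem coeff_mem_of_fixed (hB : Base v R F) [FiniteDimensional F N] [IsGalois F N] (g : N[X])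
    (hint : ∀ i, (g.coeff i : Ω) ∈ ON R N) (hfix : ∀ σ : N ≃ₐ[F] N, g.map (σ : N →+* N) = g)
    (i : ℕ) : (g.coeff i : Ω) ∈ R := by
  have h1 : ∀ σ : N ≃ₐ[F] N, σ (g.coeff i) = g.coeff i := by
    intro σ
    have h2 := congrArg (fun p => p.coeff i) (hfix σ)
    simpa using h2
  have h2 : g.coeff i ∈ Set.range (algebraMap F N) := by
    rw [IsGalois.mem_range_algebraMap_iff_fixed]
    exact h1
  obtain ⟨f, hf⟩ := h2
  refine hB.normal _ ?_ (mem_ON.1 (hint i)).1
  rw [← hf]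
  exact f.2

/-- The polynomials with coefficients in `ON`. -/
def PON (R : Subalgebra k Ω) (N : IntermediateField F Ω) : Subring N[X] where
  carrier := {p | ∀ i, (p.coeff i : Ω) ∈ ON R N}
  mul_mem' := by
    intro p q hp hq i
    rw [coeff_mul, coe_sum_N]
    exact (ON R N).sum_mem fun x _ => (ON R N).mul_mem (hp _) (hq _)
  one_mem' := by
    intro i
    rw [coeff_one]
    split_ifs
    · exact (ON R N).one_mem
    · exact (ON R N).zero_mem
  add_mem' := by
    intro p q hp hq i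
    rw [coeff_add]
    exact (ON R N).add_mem (hp i) (hq i)
  zero_mem' := by
    intro i
    rw [coeff_zero]
    exact (ON R N).zero_mem
  neg_mem' := by
    intro p hp i
    rw [coeff_neg]
    exact (ON R N).neg_mem (hp i)

theorem C_mem_PON {a : N} (ha : (a : Ω) ∈ ON R N) : C a ∈ PON R N := by
  intro i
  rw [coeff_C]
  split_ifs
  · exact ha
  · exact (ON R N).zero_mem

theorem X_mem_PON : (X : N[X]) ∈ PON R N := by
  intro i
  rw [coeff_X]
  split_ifs
  · exact (ON R N).one_mem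
  · exact (ON R N).zero_mem

theorem XC_mem_PON {a : N} (ha : (a : Ω) ∈ ON R N) : X - C a ∈ PON R N :=
  sub_mem X_mem_PON (C_mem_PON ha)

/-! ## The ring of the elements fixed by `H` -/

/-- The elements of the localised integral closure fixed by `H`. -/
noncomputable def OH (v : OVal 𝕂 Ω) (R : Subalgebra k Ω) {F : IntermediateField k Ω}
    (N : IntermediateField F Ω) (H : Subgroup (N ≃ₐ[F] N)) : Subalgebra k Ω :=
  ICl v R (N.restrictScalars k) ⊓ (fixO F N H).toSubalgebra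

variable {H : Subgroup (N ≃ₐ[F] N)}

theorem mem_OH {g : Ω} : g ∈ OH v R N H ↔
    g ∈ ICl v R (N.restrictScalars k) ∧ ∃ n : N, (n : Ω) = g ∧ ∀ s ∈ H, s n = n := by
  rw [OH, Algebra.mem_inf]
  exact and_congr Iff.rfl (mem_fixO F N H g)

theorem OH_mono {H' : Subgroup (N ≃ₐ[F] N)} (h : H ≤ H') : OH v R N H' ≤ OH v R N H := by
  intro g hg
  rw [mem_OH] at hg ⊢
  obtain ⟨h1, n, hn, h2⟩ := hg
  exact ⟨h1, n, hn, fun s hs => h2 s (h hs)⟩

theorem mem_OH_of {a : N} (ha : (a : Ω) ∈ ON R N) (hf : ∀ s ∈ H, s a = a) :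
    (a : Ω) ∈ OH v R N H := mem_OH.2 ⟨le_locv v _ ha, a, rfl, hf⟩

theorem le_OH (hB : Base v R F) : R ≤ OH v R N H := by
  intro g hg
  rw [mem_OH]
  refine ⟨le_locv v _ (le_ON hB hg), algebraMap F N ⟨g, hB.le g hg⟩, rfl, fun s _ => ?_⟩
  rw [AlgEquiv.commutes]

theorem OH_nonneg (hB : Base v R F) {g : Ω} (hg : g ∈ OH v R N H) : v.Ge 0 g :=
  locv_nonneg (fun _ hf => ge_ON (N := N) hB hf) (mem_OH.1 hg).1

theorem OH_inv {g : Ω} (hg : g ∈ OH v R N H) (h0 : g ≠ 0) (hv : v g = 0) :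
    g⁻¹ ∈ OH v R N H := by
  rw [mem_OH] at hg ⊢
  obtain ⟨h1, n, rfl, h2⟩ := hg
  refine ⟨locv_inv h1 h0 hv, n⁻¹, rfl, fun s hs => ?_⟩
  rw [map_inv₀, h2 s hs]

/-- An element of `OH` (for the decomposition group) is a fraction of fixed integral elements. -/
theorem exists_fixed_fracD (hB : Base v R F) [FiniteDimensional F N] {g : Ω}
    (hg : g ∈ OH v R N (ALLO.decP v R F N)) : ∃ a w : N, (a : Ω) ∈ ON R N ∧ (w : Ω) ∈ ON R N ∧
      (∀ s ∈ ALLO.decP v R F N, s a = a) ∧ (∀ s ∈ ALLO.decP v R F N, s w = w) ∧ (w : Ω) ≠ 0 ∧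
      v (w : Ω) = 0 ∧ g = (a : Ω) / (w : Ω) := by
  classical
  set Dp := ALLO.decP v R F N with hDp
  have hmem : ∀ {s : N ≃ₐ[F] N}, s ∈ Dp → ∀ a : N, (a : Ω) ∈ ON R N →
      (VPos v (a : Ω) ↔ VPos v (s a : Ω)) := fun hs => (mem_decP hB).1 hs
  rw [mem_OH] at hg
  obtain ⟨⟨a, ha, s₀, hs₀, hs₀0, hvs₀, hdeq⟩, d, hd, hfix⟩ := hg
  have ha' : a ∈ ON R N := ha
  have hs₀' : s₀ ∈ ON R N := hs₀
  have hs₀N : s₀ ∈ N := (mem_ON.1 hs₀').2
  set s₁ : N := ⟨s₀, hs₀N⟩ with hs₁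
  set D := Finset.univ.filter (fun s : N ≃ₐ[F] N => s ∈ Dp) with hD
  set w : N := ∏ s ∈ D, s s₁ with hw
  have h1D : (1 : N ≃ₐ[F] N) ∈ D := by
    rw [hD, Finset.mem_filter]
    exact ⟨Finset.mem_univ _, Dp.one_mem⟩
  have hwON : (w : Ω) ∈ ON R N := by
    rw [hw, coe_prod_N]
    exact (ON R N).prod_mem fun s _ => aut_ON hB s hs₀'
  have hwval : (w : Ω) ≠ 0 ∧ v (w : Ω) = 0 := by
    rw [hw, coe_prod_N]
    refine prod_val _ _ fun s hs => ?_
    have hs' : s ∈ Dp := by simpa [hD] using hs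
    refine (vpos_or (ge_ON hB (aut_ON hB s hs₀'))).resolve_left fun h2 => ?_
    exact not_vpos hs₀0 hvs₀ ((hmem hs' s₁ hs₀').2 h2)
  have hws : ∀ s ∈ Dp, s w = w := by
    intro s hs
    rw [hw, map_prod]
    refine Finset.prod_bij (fun t _ => s * t) ?_ ?_ ?_ ?_
    · intro t ht
      simp only [hD, Finset.mem_filter, Finset.mem_univ, true_and] at ht ⊢
      exact Dp.mul_mem hs ht
    · intro t _ t' _ h2
      exact mul_left_cancel h2
    · intro t ht
      simp only [hD, Finset.mem_filter, Finset.mem_univ, true_and] at ht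
      refine ⟨s⁻¹ * t, ?_, ?_⟩
      · simp only [hD, Finset.mem_filter, Finset.mem_univ, true_and]
        exact Dp.mul_mem (Dp.inv_mem hs) ht
      · rw [mul_inv_cancel_left]
    · intro t _
      rfl
  have hdwON : ((d * w : N) : Ω) ∈ ON R N := by
    have h2 : ((d * w : N) : Ω) = a * ∏ s ∈ D.erase 1, (s s₁ : Ω) := by
      rw [hw, ← Finset.mul_prod_erase D _ h1D, AlgEquiv.one_apply]
      push_cast
      rw [hd, hdeq]
      change a / s₀ * (s₀ * _) = _
      rw [← mul_assoc, div_mul_cancel₀ _ hs₀0]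
    rw [h2]
    exact (ON R N).mul_mem ha' ((ON R N).prod_mem fun s _ => aut_ON hB s hs₀')
  refine ⟨d * w, w, hdwON, hwON, ?_, hws, hwval.1, hwval.2, ?_⟩
  · intro s hs
    rw [map_mul, hws s hs, hfix s hs]
  · push_cast
    rw [mul_div_assoc, div_self hwval.1, mul_one, hd]

/-- An element of `OH` is a fraction of integral elements fixed by `H`. -/
theorem exists_fixed_frac (hB : Base v R F) (hk : ∀ c : k, c ≠ 0 → v (algebraMap k Ω c) = 0)
    (hres : ∀ g : Ω, v.Ge 0 g → ∃ c : k, VPos v (g - algebraMap k Ω c))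
    [FiniteDimensional F N] (hH : ALLO.decP v R F N ≤ H) {g : Ω}
    (hg : g ∈ OH v R N H) : ∃ a w : N, (a : Ω) ∈ ON R N ∧ (w : Ω) ∈ ON R N ∧
      (∀ s ∈ H, s a = a) ∧ (∀ s ∈ H, s w = w) ∧ (w : Ω) ≠ 0 ∧
      v (w : Ω) = 0 ∧ g = (a : Ω) / (w : Ω) := by
  classical
  obtain ⟨a, w, ha, hw, hfa, hfw, hw0, hvw, hgaw⟩ := exists_fixed_fracD hB (OH_mono hH hg)
  obtain ⟨-, n, hn, hfn⟩ := mem_OH.1 hg
  obtain ⟨b, hbON, hb1, hbs, hbτ⟩ := exists_b (N := N) hB hk hres
  obtain ⟨κ, _, _, rep, o, ho, hrepH, hrep, hπ⟩ := exists_relCosets (ALLO.decP v R F N) H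
  have hfix : ∀ c : N, (∀ s ∈ ALLO.decP v R F N, s c = c) →
      ∀ σ ∈ H, σ (∑ q, rep q c) = ∑ q, rep q c := by
    intro c hc
    refine sum_fixed fun σ hσ => ?_
    obtain ⟨π, hπσ⟩ := hπ σ hσ
    exact ⟨π, hπσ c hc⟩
  have hON : ∀ c : N, (c : Ω) ∈ ON R N → ((∑ q, rep q c : N) : Ω) ∈ ON R N := by
    intro c hc
    rw [coe_sum_N]
    exact (ON R N).sum_mem fun q _ => aut_ON hB _ hc
  have hwbON : ((w * b : N) : Ω) ∈ ON R N := by
    push_cast
    exact (ON R N).mul_mem hw hbON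
  have hwbf : ∀ s ∈ ALLO.decP v R F N, s (w * b) = w * b := fun s hs => by
    rw [map_mul, hfw s hs, hbs s hs]
  -- the new denominator
  set w' : N := ∑ q, rep q (w * b) with hw'
  have hw'1 : VPos v ((w' : Ω) - (w : Ω)) := by
    rw [hw', coe_sum_N, ← Finset.add_sum_erase Finset.univ _ (Finset.mem_univ o), ho,
      AlgEquiv.one_apply]
    have h1 : ((w * b : N) : Ω) + ∑ q ∈ Finset.univ.erase o, (rep q (w * b) : Ω) - (w : Ω) =
        (w : Ω) * ((b : Ω) - 1) + ∑ q ∈ Finset.univ.erase o, (rep q (w * b) : Ω) := by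
      push_cast
      ring
    rw [h1]
    refine (Pool.Agent.TAO.VPos.mul' (ge_ON hB hw) hb1).add (sum_vpos _ _ fun q hq => ?_)
    rw [map_mul]
    push_cast
    exact Pool.Agent.TAO.VPos.mul' (ge_ON hB (aut_ON hB _ hw))
      (hbτ _ (hrep q (Finset.ne_of_mem_erase hq)))
  have hw'val : (w' : Ω) ≠ 0 ∧ v (w' : Ω) = 0 := by
    have h1 : (w' : Ω) = (w : Ω) + ((w' : Ω) - (w : Ω)) := by ring
    rw [h1]
    exact Pool.Agent.TAO.val_add_vpos hw0 hvw hw'1
  have hnw : n * w' = ∑ q, rep q (a * b) := by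
    rw [hw', Finset.mul_sum]
    refine Finset.sum_congr rfl fun q _ => ?_
    have h1 : n * w = a := by
      apply Subtype.ext
      push_cast
      rw [hn, hgaw, div_mul_cancel₀ _ hw0]
    have h2 : rep q (n * (w * b)) = n * rep q (w * b) := by
      rw [map_mul, hfn _ (hrepH q)]
    rw [← h2, ← mul_assoc, h1]
  have habON : ((a * b : N) : Ω) ∈ ON R N := by
    push_cast
    exact (ON R N).mul_mem ha hbON
  have habf : ∀ s ∈ ALLO.decP v R F N, s (a * b) = a * b := fun s hs => by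
    rw [map_mul, hfa s hs, hbs s hs]
  refine ⟨∑ q, rep q (a * b), w', hON _ habON, hON _ hwbON, hfix _ habf, hfix _ hwbf, hw'val.1,
    hw'val.2, ?_⟩
  rw [← hnw]
  push_cast
  rw [mul_div_assoc, div_self hw'val.1, mul_one, hn]

/-- `OH` is the localisation at the centre of the integral closure of `R` in the fixed field. -/
theorem OH_eq (hB : Base v R F) (hk : ∀ c : k, c ≠ 0 → v (algebraMap k Ω c) = 0)
    (hres : ∀ g : Ω, v.Ge 0 g → ∃ c : k, VPos v (g - algebraMap k Ω c))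
    [FiniteDimensional F N] (hH : ALLO.decP v R F N ≤ H) :
    OH v R N H = ICl v R (fixO F N H) := by
  refine le_antisymm ?_ ?_
  · intro g hg
    obtain ⟨a, w, ha, hw, hfa, hfw, hw0, hvw, rfl⟩ := exists_fixed_frac hB hk hres hH hg
    exact ⟨a, ⟨(mem_fixO F N H _).2 ⟨a, rfl, hfa⟩, (mem_ON.1 ha).1⟩, w,
      ⟨(mem_fixO F N H _).2 ⟨w, rfl, hfw⟩, (mem_ON.1 hw).1⟩, hw0, hvw, rfl⟩
  · refine locv_le ?_ fun f hf h0 hv => OH_inv hf h0 hv
    rintro g ⟨hg1, hg2⟩
    obtain ⟨n, rfl, hn⟩ := (mem_fixO F N H _).1 hg1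
    exact mem_OH_of (mem_ON.2 ⟨hg2, n.2⟩) hn

/-- Lagrange interpolation at the element separating the primes: `OH` is local etale over `R`. -/
theorem OH_et (hB : Base v R F) (hk : ∀ c : k, c ≠ 0 → v (algebraMap k Ω c) = 0)
    (hres : ∀ g : Ω, v.Ge 0 g → ∃ c : k, VPos v (g - algebraMap k Ω c))
    [FiniteDimensional F N] [IsGalois F N] (hH : ALLO.decP v R F N ≤ H) :
    ∃ (θ : Ω) (P : Polynomial Ω), P.Monic ∧ (∀ i, P.coeff i ∈ R) ∧ P.eval θ = 0 ∧
      P.derivative.eval θ ≠ 0 ∧ v (P.derivative.eval θ) = 0 ∧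
      OH v R N H = locv v (Algebra.adjoin k ((R : Set Ω) ∪ {θ})) := by
  classical
  obtain ⟨b, hbON, hb1, hbs, hbτ⟩ := exists_bH (N := N) hB hk hres hH
  obtain ⟨κ, _, _, rep, o, ho, hrep, hπ⟩ := exists_cosets (N := N) H
  set C := OH v R N H with hC
  have hRC : R ≤ C := le_OH hB
  have hbC : (b : Ω) ∈ C := mem_OH_of hbON hbs
  have hmap : ∀ p : N[X], ∀ x : N, (p.map (algebraMap N Ω)).eval (x : Ω) = ((p.eval x : N) : Ω) := by
    intro p x
    rw [eval_map]
    exact (hom_eval₂ p (RingHom.id N) (algebraMap N Ω) x).symm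
  -- the polynomial
  set g : N[X] := ∏ q, (X - Polynomial.C (rep q b)) with hg
  have hgP : g ∈ PON R N := (PON R N).prod_mem fun q _ => XC_mem_PON (aut_ON hB _ hbON)
  have hgfix : ∀ σ : N ≃ₐ[F] N, g.map (σ : N →+* N) = g := by
    intro σ
    obtain ⟨π, hπσ⟩ := hπ σ
    rw [hg, Polynomial.map_prod]
    refine Fintype.prod_equiv π _ _ fun q => ?_
    rw [Polynomial.map_sub, Polynomial.map_X, Polynomial.map_C]
    have h1 : (σ : N →+* N) (rep q b) = rep (π q) b := hπσ b hbs q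
    rw [h1]
  have hgm : g.Monic := monic_prod_of_monic _ _ fun q _ => monic_X_sub_C _
  have hgb : g.eval b = 0 := by
    rw [hg, eval_prod, Finset.prod_eq_zero (i := o) (Finset.mem_univ o)]
    rw [eval_sub, eval_X, eval_C, ho, AlgEquiv.one_apply, sub_self]
  set w : N := ∏ q ∈ Finset.univ.erase o, (b - rep q b) with hw
  have hgd : g.derivative.eval b = w := by
    have h1 : g = (X - Polynomial.C b) * ∏ q ∈ Finset.univ.erase o, (X - Polynomial.C (rep q b)) := by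
      rw [hg, ← Finset.mul_prod_erase Finset.univ _ (Finset.mem_univ o), ho, AlgEquiv.one_apply]
    rw [h1, derivative_mul, eval_add, eval_mul, eval_mul, derivative_sub, derivative_X,
      derivative_C, sub_zero, eval_one, one_mul, eval_sub, eval_X, eval_C, sub_self, zero_mul,
      add_zero, eval_prod, hw]
    refine Finset.prod_congr rfl fun q _ => ?_
    rw [eval_sub, eval_X, eval_C]
  have hwval : (w : Ω) ≠ 0 ∧ v (w : Ω) = 0 := by
    rw [hw, coe_prod_N]
    refine prod_val _ _ fun q hq => ?_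
    have h2 := hbτ _ (hrep q (Finset.ne_of_mem_erase hq))
    refine (vpos_or (ge_ON (N := N) hB ?_)).resolve_left fun h3 => ?_
    · exact (ON R N).sub_mem hbON (aut_ON hB _ hbON)
    · have h4 : VPos v (1 : Ω) := by
        have h5 : (1 : Ω) = (((b - rep q b : N) : Ω) + (rep q b : Ω)) - ((b : Ω) - 1) := by
          push_cast
          ring
        rw [h5]
        exact (h3.add h2).sub hb1
      exact not_vpos_one h4
  -- Lagrange
  set S := Algebra.adjoin k ((R : Set Ω) ∪ {(b : Ω)}) with hS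
  have hRS : ∀ f ∈ R, f ∈ S := fun f hf => Algebra.subset_adjoin (Or.inl hf)
  have hbS : (b : Ω) ∈ S := Algebra.subset_adjoin (Or.inr rfl)
  have hev : ∀ p : N[X], (∀ i, (p.coeff i : Ω) ∈ R) → ((p.eval b : N) : Ω) ∈ S := by
    intro p hp
    rw [eval_eq_sum_range, coe_sum_N]
    refine S.sum_mem fun i _ => ?_
    push_cast
    exact S.mul_mem (hRS _ (hp i)) (S.pow_mem hbS i)
  have hlag : ∀ a : N, (a : Ω) ∈ ON R N → (∀ s ∈ H, s a = a) → (a : Ω) * (w : Ω) ∈ S := by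
    intro a ha hfa
    set p : N[X] := ∑ q, Polynomial.C (rep q a) *
      ∏ q' ∈ Finset.univ.erase q, (X - Polynomial.C (rep q' b)) with hp
    have hpP : p ∈ PON R N := (PON R N).sum_mem fun q _ => (PON R N).mul_mem
      (C_mem_PON (aut_ON hB _ ha)) ((PON R N).prod_mem fun q' _ => XC_mem_PON (aut_ON hB _ hbON))
    have hpfix : ∀ σ : N ≃ₐ[F] N, p.map (σ : N →+* N) = p := by
      intro σ
      obtain ⟨π, hπσ⟩ := hπ σ
      rw [hp, Polynomial.map_sum]
      refine Fintype.sum_equiv π _ _ fun q => ?_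
      rw [Polynomial.map_mul, Polynomial.map_C, Polynomial.map_prod]
      have h1 : (σ : N →+* N) (rep q a) = rep (π q) a := hπσ a hfa q
      rw [h1]
      congr 1
      refine Finset.prod_bij (fun q' _ => π q') ?_ ?_ ?_ ?_
      · intro q' hq'
        rw [Finset.mem_erase] at hq' ⊢
        exact ⟨fun h2 => hq'.1 (π.injective h2), Finset.mem_univ _⟩
      · intro q' _ q'' _ h2
        exact π.injective h2
      · intro q' hq'
        refine ⟨π.symm q', ?_, π.apply_symm_apply q'⟩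
        rw [Finset.mem_erase] at hq' ⊢
        refine ⟨fun h2 => hq'.1 ?_, Finset.mem_univ _⟩
        rw [← h2, π.apply_symm_apply]
      · intro q' _
        rw [Polynomial.map_sub, Polynomial.map_X, Polynomial.map_C]
        have h2 : (σ : N →+* N) (rep q' b) = rep (π q') b := hπσ b hbs q'
        rw [h2]
    have h1 := hev p (coeff_mem_of_fixed hB p hpP hpfix)
    have h2 : p.eval b = a * w := by
      rw [hp, eval_finsetSum, Finset.sum_eq_single o]
      · rw [eval_mul, eval_C, ho, AlgEquiv.one_apply, eval_prod, hw]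
        congr 1
        refine Finset.prod_congr rfl fun q _ => ?_
        rw [eval_sub, eval_X, eval_C]
      · intro q _ hq
        rw [eval_mul, eval_prod, Finset.prod_eq_zero (i := o), mul_zero]
        · exact Finset.mem_erase.2 ⟨fun h => hq h.symm, Finset.mem_univ _⟩
        · rw [eval_sub, eval_X, eval_C, ho, AlgEquiv.one_apply, sub_self]
      · intro h
        exact absurd (Finset.mem_univ o) h
    rw [h2] at h1
    exact h1
  have hcoeff : ∀ i, (g.coeff i : Ω) ∈ R := coeff_mem_of_fixed hB g hgP hgfix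
  refine ⟨b, g.map (algebraMap N Ω), hgm.map _, ?_, ?_, ?_, ?_, ?_⟩
  · intro i
    rw [coeff_map]
    exact hcoeff i
  · rw [hmap, hgb]
    rfl
  · rw [derivative_map, hmap, hgd]
    exact hwval.1
  · rw [derivative_map, hmap, hgd]
    exact hwval.2
  · refine le_antisymm ?_ ?_
    · intro f hf
      obtain ⟨a, w', ha, hw', hfa, hfw', hw'0, hvw', rfl⟩ := exists_fixed_frac hB hk hres hH hf
      refine ⟨(a : Ω) * (w : Ω), hlag a ha hfa, (w' : Ω) * (w : Ω), hlag w' hw' hfw',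
        mul_ne_zero hw'0 hwval.1, ?_, ?_⟩
      · rw [v.map_mul hw'0 hwval.1, hvw', hwval.2, add_zero]
      · rw [mul_div_mul_right _ _ hwval.1]
    · refine locv_le ?_ fun f hf h0 hv => OH_inv hf h0 hv
      rw [Algebra.adjoin_le_iff]
      rintro f (hf | hf)
      · exact hRC hf
      · rw [Set.mem_singleton_iff] at hf
        rw [hf]
        exact hbC

end Cosets

end Pool.Agent.ALLh64
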