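import Pool.Agent.Lib.ALLY.Icl

/-!
# PROJECT ALL, block Y: finitely many elements of the henselization of `S.P` are rational functions
of one simple root of a monic polynomial over `S.P`
-/

set_option autoImplicit false

open Polynomial

namespace Pool.Agent.ALLY

open Pool.Agent.TAO (OVal VPos Ctx0 CtxR)
open Pool.Agent.ALLh64
open Pool.Agent.ALLO (locv icl ICl)

universe u w

variable {k Ω : Type u} [Field k] [Field Ω] [Algebra k Ω] {𝕂 : Type w} [Field 𝕂] [LinearOrder 𝕂]
  [IsStrictOrderedRing 𝕂] {v : OVal 𝕂 Ω} {n r D : ℕ}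

/-- The elements of `A[θ]` are the values at `θ` of the polynomials over `A`. -/
theorem mem_adjoin_iff_poly {A : Subalgebra k Ω} {θ f : Ω} :
    f ∈ Algebra.adjoin k ((A : Set Ω) ∪ {θ}) ↔
      ∃ a : Polynomial Ω, (∀ i, a.coeff i ∈ A) ∧ f = a.eval θ := by
  constructor
  · intro hf
    induction hf using Algebra.adjoin_induction with
    | mem f hf =>
      rcases hf with hf | hf
      · refine ⟨C f, fun i => ?_, by rw [eval_C]⟩
        rw [coeff_C]
        split_ifs
        · exact hf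
        · exact A.zero_mem
      · rw [Set.mem_singleton_iff] at hf
        refine ⟨X, fun i => ?_, by rw [eval_X, hf]⟩
        rw [coeff_X]
        split_ifs
        · exact A.one_mem
        · exact A.zero_mem
    | algebraMap c =>
      refine ⟨C (algebraMap k Ω c), fun i => ?_, by rw [eval_C]⟩
      rw [coeff_C]
      split_ifs
      · exact A.algebraMap_mem c
      · exact A.zero_mem
    | add f g _ _ hf hg =>
      obtain ⟨a, ha, rfl⟩ := hf
      obtain ⟨b, hb, rfl⟩ := hg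
      exact ⟨a + b, fun i => by rw [coeff_add]; exact A.add_mem (ha i) (hb i), by rw [eval_add]⟩
    | mul f g _ _ hf hg =>
      obtain ⟨a, ha, rfl⟩ := hf
      obtain ⟨b, hb, rfl⟩ := hg
      refine ⟨a * b, fun i => ?_, by rw [eval_mul]⟩
      rw [coeff_mul]
      exact A.sum_mem fun x _ => A.mul_mem (ha _) (hb _)
  · rintro ⟨a, ha, rfl⟩
    rw [eval_eq_sum_range]
    have h1 : θ ∈ Algebra.adjoin k ((A : Set Ω) ∪ {θ}) := Algebra.subset_adjoin (Or.inr rfl)
    exact Subalgebra.sum_mem _ fun i _ => Subalgebra.mul_mem _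
      (Algebra.subset_adjoin (Or.inl (ha i))) (Subalgebra.pow_mem _ h1 i)

/-- The derivative of `scaleRoots`. -/
theorem derivative_scaleRoots_eval (P : Polynomial Ω) (y θ : Ω) (hy : y ≠ 0) :
    (P.scaleRoots y).derivative.eval (y * θ) = y ^ (P.natDegree - 1) * P.derivative.eval θ := by
  rw [derivative_eval, derivative_eval, Polynomial.sum_def, Polynomial.sum_def,
    support_scaleRoots_eq P (mem_nonZeroDivisors_of_ne_zero hy), Finset.mul_sum]
  refine Finset.sum_congr rfl fun i hi => ?_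
  rw [coeff_scaleRoots]
  rcases Nat.eq_zero_or_pos i with h0 | h0
  · subst h0
    simp
  have hle : i ≤ P.natDegree := le_natDegree_of_mem_supp i hi
  have h1 : y ^ (P.natDegree - i) * y ^ (i - 1) = y ^ (P.natDegree - 1) := by
    rw [← pow_add]
    congr 1
    omega
  rw [← h1, mul_pow]
  ring

theorem RD.exists_std [IsAlgClosed Ω] (h : CtxR k v n r) (S : RD k v D)
    (hS : Algebra.trdeg k S.K = r + D) (T : Finset Ω) (hT : ∀ t ∈ T, t ∈ S.H) :
    ∃ (θ : Ω) (g : Polynomial Ω), v.Ge 0 θ ∧ g.Monic ∧ (∀ i, g.coeff i ∈ S.P) ∧ g.eval θ = 0 ∧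
      g.derivative.eval θ ≠ 0 ∧ v (g.derivative.eval θ) = 0 ∧
      ∀ t ∈ T, ∃ a b : Polynomial Ω, (∀ i, a.coeff i ∈ S.P) ∧ (∀ i, b.coeff i ∈ S.P) ∧
        b.eval θ ≠ 0 ∧ v (b.eval θ) = 0 ∧ t = a.eval θ / b.eval θ := by
  obtain ⟨C, ⟨θ, P, hm, hP, h0, h1, h2, h3⟩, hCH, -, hTC⟩ := S.exists_et h hS T hT
  obtain ⟨y, hy, hy0, hvy, hyP⟩ := exists_common_den P hP
  have hθC : θ ∈ C := by
    rw [h3]
    exact le_locv v _ (Algebra.subset_adjoin (Or.inr rfl))
  have hyH : y ∈ S.H := S.P_le_H hy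
  have hcoeff : ∀ i, (P.scaleRoots y).coeff i ∈ S.P := by
    intro i
    rw [coeff_scaleRoots]
    rcases lt_trichotomy i P.natDegree with h | h | h
    · obtain ⟨m, hm⟩ : ∃ m, P.natDegree - i = m + 1 := ⟨P.natDegree - i - 1, by omega⟩
      rw [hm, pow_succ', ← mul_assoc, mul_comm (P.coeff i) y]
      exact S.P.mul_mem (hyP i) (S.P.pow_mem hy m)
    · subst h
      rw [hm.coeff_natDegree, one_mul]
      exact S.P.pow_mem hy _
    · rw [coeff_eq_zero_of_natDegree_lt h, zero_mul]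
      exact S.P.zero_mem
  refine ⟨y * θ, P.scaleRoots y, S.nonneg h.toCtx0 _ (S.H.mul_mem hyH (hCH hθC)),
    (monic_scaleRoots_iff y).2 hm, hcoeff, ?_, ?_, ?_, ?_⟩
  · rw [scaleRoots_eval_mul, h0, mul_zero]
  · rw [derivative_scaleRoots_eval P y θ hy0]
    exact mul_ne_zero (pow_ne_zero _ hy0) h1
  · rw [derivative_scaleRoots_eval P y θ hy0, v.map_mul (pow_ne_zero _ hy0) h1,
      v.map_pow hy0, hvy, h2, mul_zero, add_zero]
  · intro t ht
    have ht' := hTC t ht
    rw [h3] at ht'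
    have ht'' : t ∈ locv v (Algebra.adjoin k ((S.P : Set Ω) ∪ {y * θ})) := by
      refine locv_le ?_ (fun g hg h0 hv => locv_inv hg h0 hv) ht'
      rw [Algebra.adjoin_le_iff]
      rintro g (hg | hg)
      · exact locv_mono (fun z hz => Algebra.subset_adjoin (Or.inl hz)) hg
      · rw [Set.mem_singleton_iff] at hg
        subst hg
        refine ⟨y * g, Algebra.subset_adjoin (Or.inr rfl), y, Algebra.subset_adjoin (Or.inl hy),
          hy0, hvy, ?_⟩
        rw [mul_comm, mul_div_assoc, div_self hy0, mul_one]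
    obtain ⟨a, ha, b, hb, hb0, hvb, hab⟩ := ht''
    obtain ⟨a', ha', rfl⟩ := mem_adjoin_iff_poly.1 ha
    obtain ⟨b', hb', rfl⟩ := mem_adjoin_iff_poly.1 hb
    exact ⟨a', b', ha', hb', hb0, hvb, hab⟩

end Pool.Agent.ALLY
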