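import Pool.Agent.Lib.ALLY_h64.Dec
import Pool.Agent.Lib.ALLY.Defs

/-!
# PROJECT ALL: structure of the henselization inside `Ω`

`R` is a local ring dominated by the valuation ring of `v`, integrally closed in its field of
fractions `F`. `Hz v R` is the union of the rings `OH v R N (decP)`, `N / F` finite Galois, each of
which is `R[θ]` localised at the centre, `θ` a simple root of a monic polynomial.
-/

set_option autoImplicit false

open Polynomial

namespace Pool.Agent.ALLh64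

open Pool.Agent.TAO (OVal VPos ge_of_isIntegral)
open Pool.Agent.LU1 (FracIs fixO mem_fixO)
open Pool.Agent.ALLO (locv icl ICl)
open Pool.Agent.ALLY (HCl Hz)

universe u w

variable {k Ω : Type u} [Field k] [Field Ω] [Algebra k Ω]
  {𝕂 : Type w} [Field 𝕂] [LinearOrder 𝕂] [IsStrictOrderedRing 𝕂] {v : OVal 𝕂 Ω}

/-! ## Lifting polynomials to subrings -/

theorem exists_lift {S : Subalgebra k Ω} (P : Polynomial Ω) (hP : ∀ i, P.coeff i ∈ S) :
    ∃ Q : S[X], Q.map (algebraMap S Ω) = P := by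
  have h1 : P ∈ lifts (algebraMap S Ω) := by
    rw [lifts_iff_coeff_lifts]
    intro i
    exact ⟨⟨P.coeff i, hP i⟩, rfl⟩
  exact (mem_lifts P).1 h1

theorem exists_lift_monic {S : Subalgebra k Ω} (P : Polynomial Ω) (hm : P.Monic)
    (hP : ∀ i, P.coeff i ∈ S) : ∃ Q : S[X], Q.Monic ∧ Q.map (algebraMap S Ω) = P := by
  have h1 : P ∈ lifts (algebraMap S Ω) := by
    rw [lifts_iff_coeff_lifts]
    intro i
    exact ⟨⟨P.coeff i, hP i⟩, rfl⟩
  obtain ⟨Q, hQ, -, hQm⟩ := lifts_and_natDegree_eq_and_monic h1 hm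
  exact ⟨Q, hQm, hQ⟩

theorem isIntegral_of_coeff {S : Subalgebra k Ω} (P : Polynomial Ω) (hm : P.Monic)
    (hP : ∀ i, P.coeff i ∈ S) {a : Ω} (ha : P.eval a = 0) : IsIntegral S a := by
  obtain ⟨Q, hQm, hQ⟩ := exists_lift_monic P hm hP
  refine ⟨Q, hQm, ?_⟩
  rw [← eval_map, hQ, ha]

/-- A polynomial evaluated at a root of another one. -/
theorem exists_coeff_of_isIntegral {S : Subalgebra k Ω} {a : Ω} (h : IsIntegral S a) :
    ∃ P : Polynomial Ω, P.Monic ∧ (∀ i, P.coeff i ∈ S) ∧ P.eval a = 0 := by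
  obtain ⟨Q, hQm, hQ⟩ := h
  refine ⟨Q.map (algebraMap S Ω), hQm.map _, fun i => ?_, ?_⟩
  · rw [coeff_map]
    exact (Q.coeff i).2
  · rw [eval_map]
    exact hQ

/-! ## Simple roots -/

/-- The valuation ring. -/
def VR (v : OVal 𝕂 Ω) : Subring Ω where
  carrier := {x | v.Ge 0 x}
  mul_mem' := fun ha hb => by
    have := OVal.Ge.mul ha hb
    rwa [add_zero] at this
  one_mem' := fun _ => by rw [v.map_one]
  add_mem' := fun ha hb => OVal.Ge.add ha hb
  zero_mem' := OVal.Ge.zero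
  neg_mem' := fun ha => OVal.Ge.neg ha

/-- Two roots with the same residue, one of them simple. -/
theorem simple_unique (P : Polynomial Ω) (hP : ∀ i, v.Ge 0 (P.coeff i)) {a b : Ω} (ha : v.Ge 0 a)
    (h0 : P.eval a = 0) (h0' : P.eval b = 0) (hab : VPos v (b - a))
    (h1 : P.derivative.eval a ≠ 0) (h2 : v (P.derivative.eval a) = 0) : b = a := by
  by_contra hne
  have h3 : P ∈ lifts (VR v).subtype := by
    rw [lifts_iff_coeff_lifts]
    intro i
    exact ⟨⟨P.coeff i, hP i⟩, rfl⟩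
  obtain ⟨Q, hQ⟩ := (mem_lifts P).1 h3
  set x : VR v := ⟨a, ha⟩ with hx
  set y : VR v := ⟨b - a, hab.ge⟩ with hy
  have hev : ∀ (q : (VR v)[X]) (z : VR v), (q.map (VR v).subtype).eval (z : Ω) =
      ((q.eval z : VR v) : Ω) := by
    intro q z
    rw [eval_map]
    exact (hom_eval₂ q (RingHom.id _) (VR v).subtype z).symm
  obtain ⟨c, hc⟩ := binomExpansion Q x y
  have h4 := congrArg (fun t : VR v => (t : Ω)) hc
  simp only [Subring.coe_add, Subring.coe_mul, Subring.coe_pow] at h4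
  rw [← hev, ← hev, ← hev, ← derivative_map, hQ] at h4
  have h5 : ((x + y : VR v) : Ω) = b := by
    rw [hx, hy, Subring.coe_add]
    ring
  rw [h5, h0'] at h4
  have h6 : ((x : VR v) : Ω) = a := rfl
  have h7 : ((y : VR v) : Ω) = b - a := rfl
  rw [h6, h7, h0, zero_add] at h4
  have h8 : b - a ≠ 0 := sub_ne_zero.2 hne
  have h9 : P.derivative.eval a = -((c : Ω) * (b - a)) := by
    have : (b - a) * (P.derivative.eval a + (c : Ω) * (b - a)) = 0 := by
      linear_combination -h4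
    rcases mul_eq_zero.1 this with h | h
    · exact absurd h h8
    · linear_combination h
  apply not_vpos h1 h2
  rw [h9]
  exact (Pool.Agent.TAO.VPos.mul' c.2 hab).neg

section

variable {R : Subalgebra k Ω} {F : IntermediateField k Ω} {N : IntermediateField F Ω}

theorem CN_nonneg (hB : Base v R F) {g : Ω} (hg : g ∈ ICl v R (N.restrictScalars k)) :
    v.Ge 0 g := locv_nonneg (fun _ hf => ge_ON (N := N) hB hf) hg

/-- The automorphisms of the decomposition group preserve the residues. -/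
theorem vpos_sub_aut (hB : Base v R F)
    (hres : ∀ g : Ω, v.Ge 0 g → ∃ c : k, VPos v (g - algebraMap k Ω c)) {s : N ≃ₐ[F] N}
    (hs : s ∈ ALLO.decP v R F N) {a : N} (ha : (a : Ω) ∈ ICl v R (N.restrictScalars k)) :
    VPos v ((s a : Ω) - (a : Ω)) ∧ v.Ge 0 (s a : Ω) := by
  obtain ⟨c, hc⟩ := hres _ (CN_nonneg hB ha)
  obtain ⟨x, hx, y, hy, hy0, hvy, hxy⟩ := ha
  have hx' : x ∈ ON R N := hx
  have hy' : y ∈ ON R N := hy
  set x' : N := ⟨x, (mem_ON.1 hx').2⟩ with hx'd
  set y' : N := ⟨y, (mem_ON.1 hy').2⟩ with hy'd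
  set c' : N := algebraMap F N (algebraMap k F c) with hc'
  have hcΩ : (c' : Ω) = algebraMap k Ω c := rfl
  have hcON : (c' : Ω) ∈ ON R N := by
    rw [hcΩ]
    exact (ON R N).algebraMap_mem _
  have haxy : a * y' = x' := by
    apply Subtype.ext
    change (a : Ω) * y = x
    rw [hxy, div_mul_cancel₀ _ hy0]
  have h1 : ((x' - c' * y' : N) : Ω) ∈ ON R N := by
    push_cast
    exact (ON R N).sub_mem hx' ((ON R N).mul_mem hcON hy')
  have h2 : VPos v ((x' - c' * y' : N) : Ω) := by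
    have h3 : ((x' - c' * y' : N) : Ω) = ((a : Ω) - algebraMap k Ω c) * y := by
      rw [← haxy, ← hcΩ]
      push_cast
      change (a : Ω) * y - (c' : Ω) * y = _
      ring
    rw [h3]
    exact hc.mul fun _ => by rw [hvy]
  have hs' := (mem_decP hB).1 hs
  have h3 := (hs' _ h1).1 h2
  have hsy : (s y' : Ω) ≠ 0 ∧ v (s y' : Ω) = 0 := by
    refine (vpos_or (ge_ON hB (aut_ON hB s hy'))).resolve_left fun h4 => ?_
    exact not_vpos hy0 hvy ((hs' y' hy').2 h4)
  have h4 : VPos v ((s a : Ω) - algebraMap k Ω c) := by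
    have h5 : (s (x' - c' * y') : Ω) = ((s a : Ω) - algebraMap k Ω c) * (s y' : Ω) := by
      rw [← haxy, ← hcΩ]
      have : s (a * y' - c' * y') = (s a - c') * s y' := by
        rw [map_sub, map_mul, map_mul, hc', AlgEquiv.commutes]
        ring
      rw [this]
      push_cast
      ring
    have h6 : (s a : Ω) - algebraMap k Ω c = (s (x' - c' * y') : Ω) * (s y' : Ω)⁻¹ := by
      rw [h5, mul_assoc, mul_inv_cancel₀ hsy.1, mul_one]
    rw [h6]
    refine h3.mul fun _ => ?_
    rw [v.map_inv hsy.1, hsy.2, neg_zero]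
  refine ⟨?_, ?_⟩
  · have h5 : (s a : Ω) - (a : Ω) = ((s a : Ω) - algebraMap k Ω c) -
        ((a : Ω) - algebraMap k Ω c) := by ring
    rw [h5]
    exact h4.sub hc
  · have h5 : (s a : Ω) = ((s a : Ω) - algebraMap k Ω c) + ((a : Ω) -
        ((a : Ω) - algebraMap k Ω c)) := by ring
    rw [h5]
    exact h4.ge.add ((CN_nonneg (N := N) hB ⟨x, hx, y, hy, hy0, hvy, hxy⟩).sub hc.ge)

/-- A simple root of a polynomial with fixed coefficients is fixed. -/
theorem fixed_of_root (hB : Base v R F)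
    (hres : ∀ g : Ω, v.Ge 0 g → ∃ c : k, VPos v (g - algebraMap k Ω c)) {s : N ≃ₐ[F] N}
    (hs : s ∈ ALLO.decP v R F N) (P : Polynomial Ω)
    (hP : ∀ i, v.Ge 0 (P.coeff i) ∧ ∃ n : N, (n : Ω) = P.coeff i ∧ s n = n) {a : N}
    (ha : (a : Ω) ∈ ICl v R (N.restrictScalars k)) (h0 : P.eval (a : Ω) = 0)
    (h1 : P.derivative.eval (a : Ω) ≠ 0) (h2 : v (P.derivative.eval (a : Ω)) = 0) : s a = a := by
  have h3 : P ∈ lifts (algebraMap N Ω) := by
    rw [lifts_iff_coeff_lifts]
    intro i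
    obtain ⟨-, n, hn, -⟩ := hP i
    exact ⟨n, hn⟩
  obtain ⟨Q, hQ⟩ := (mem_lifts P).1 h3
  have hev : ∀ x : N, P.eval (x : Ω) = ((Q.eval x : N) : Ω) := by
    intro x
    rw [← hQ, eval_map]
    exact (hom_eval₂ Q (RingHom.id N) (algebraMap N Ω) x).symm
  have hQs : Q.map (s : N →+* N) = Q := by
    ext i
    rw [coeff_map]
    obtain ⟨-, n, hn, hsn⟩ := hP i
    have h4 : Q.coeff i = n := by
      apply Subtype.ext
      rw [hn, ← hQ, coeff_map]
      rfl
    rw [h4]
    exact congrArg Subtype.val hsn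
  have h4 : Q.eval a = 0 := by
    apply Subtype.ext
    rw [← hev, h0]
    rfl
  have h5 : Q.eval (s a) = 0 := by
    have h6 : (Q.map (s : N →+* N)).eval ((s : N →+* N) a) = (s : N →+* N) (Q.eval a) := by
      rw [eval_map, eval₂_at_apply]
    rw [hQs, h4, map_zero] at h6
    exact h6
  obtain ⟨h6, -⟩ := vpos_sub_aut hB hres hs ha
  apply Subtype.ext
  refine simple_unique P (fun i => (hP i).1) (CN_nonneg hB ha) h0 ?_ h6 h1 h2
  rw [hev, h5]
  rfl

/-- A local etale ring over `R` whose generator is in `N` is fixed by the decomposition group. -/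
theorem etR_le_OH (hB : Base v R F)
    (hres : ∀ g : Ω, v.Ge 0 g → ∃ c : k, VPos v (g - algebraMap k Ω c)) {θ : Ω} (hθ : θ ∈ N)
    (P : Polynomial Ω) (hm : P.Monic) (hP : ∀ i, P.coeff i ∈ R) (h0 : P.eval θ = 0)
    (h1 : P.derivative.eval θ ≠ 0) (h2 : v (P.derivative.eval θ) = 0) :
    locv v (Algebra.adjoin k ((R : Set Ω) ∪ {θ})) ≤ OH v R N (ALLO.decP v R F N) := by
  refine locv_le ?_ fun f hf h0 hv => OH_inv hf h0 hv
  rw [Algebra.adjoin_le_iff]
  rintro f (hf | hf)
  · exact le_OH hB hf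
  · rw [Set.mem_singleton_iff] at hf
    subst hf
    have h3 : f ∈ ON R N := mem_ON.2 ⟨isIntegral_of_coeff P hm hP h0, hθ⟩
    set a : N := ⟨f, hθ⟩ with ha
    have haON : (a : Ω) ∈ ON R N := h3
    refine mem_OH_of (a := a) haON fun s hs => ?_
    refine fixed_of_root hB hres hs P (fun i => ⟨hB.nonneg _ (hP i), ?_⟩) (le_locv v _ haON) h0 h1
      h2
    exact ⟨algebraMap F N ⟨P.coeff i, hB.le _ (hP i)⟩, rfl, s.commutes _⟩

theorem OH_le_of_le (hB : Base v R F) (hk : ∀ c : k, c ≠ 0 → v (algebraMap k Ω c) = 0)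
    (hres : ∀ g : Ω, v.Ge 0 g → ∃ c : k, VPos v (g - algebraMap k Ω c))
    [FiniteDimensional F N] [IsGalois F N] {N' : IntermediateField F Ω} (hN : N ≤ N') :
    OH v R N (ALLO.decP v R F N) ≤ OH v R N' (ALLO.decP v R F N') := by
  obtain ⟨θ, P, hm, hP, h0, h1, h2, h3⟩ := OH_et (N := N) hB hk hres le_rfl
  rw [h3]
  refine etR_le_OH hB hres (hN ?_) P hm hP h0 h1 h2
  have h4 : θ ∈ OH v R N (ALLO.decP v R F N) := by
    rw [h3]
    exact le_locv v _ (Algebra.subset_adjoin (Or.inr rfl))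
  obtain ⟨-, n, hn, -⟩ := mem_OH.1 h4
  rw [← hn]
  exact n.2

end

/-! ## Galois closures -/

section

variable [IsAlgClosed Ω] {F : IntermediateField k Ω}

theorem exists_galois (L : IntermediateField F Ω) [FiniteDimensional F L]
    [Algebra.IsSeparable F L] : ∃ N : IntermediateField F Ω, FiniteDimensional F N ∧
      IsGalois F N ∧ L ≤ N := by
  let N : IntermediateField F Ω := IntermediateField.normalClosure F L Ω
  have hN : FiniteDimensional F N := normalClosure.is_finiteDimensional F L Ω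
  have hnc : IsNormalClosure F L N := by
    refine Algebra.IsAlgebraic.isNormalClosure_normalClosure fun x => ?_
    exact IsAlgClosed.splits _
  have hn : Normal F N := IsNormalClosure.normal (F := F) (K := L) (L := N)
  have hsN : Algebra.IsSeparable F N := by
    rw [← le_separableClosure_iff]
    refine normalClosure_le_iff.2 fun i => ?_
    have : Algebra.IsSeparable F i.fieldRange :=
      AlgEquiv.Algebra.isSeparable (AlgEquiv.ofInjectiveField i)
    exact le_separableClosure F Ω _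
  exact ⟨N, hN, ⟨⟩, IntermediateField.le_normalClosure L⟩

theorem exists_galois_sup (N₁ N₂ : IntermediateField F Ω) [FiniteDimensional F N₁]
    [FiniteDimensional F N₂] [IsGalois F N₁] [IsGalois F N₂] :
    ∃ N : IntermediateField F Ω, FiniteDimensional F N ∧ IsGalois F N ∧ N₁ ≤ N ∧ N₂ ≤ N := by
  obtain ⟨N, h1, h2, h3⟩ := exists_galois (N₁ ⊔ N₂)
  exact ⟨N, h1, h2, le_sup_left.trans h3, le_sup_right.trans h3⟩

theorem exists_galois_mem (N₁ : IntermediateField F Ω) [FiniteDimensional F N₁] [IsGalois F N₁]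
    {a : Ω} (ha : IsSeparable F a) :
    ∃ N : IntermediateField F Ω, FiniteDimensional F N ∧ IsGalois F N ∧ N₁ ≤ N ∧ a ∈ N := by
  have h1 : FiniteDimensional F (IntermediateField.adjoin F {a}) :=
    IntermediateField.adjoin.finiteDimensional ha.isIntegral
  have h2 : Algebra.IsSeparable F (IntermediateField.adjoin F {a}) :=
    (IntermediateField.isSeparable_adjoin_simple_iff_isSeparable F Ω).2 ha
  obtain ⟨N, h1, h2, h3⟩ := exists_galois (N₁ ⊔ IntermediateField.adjoin F {a})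
  exact ⟨N, h1, h2, le_sup_left.trans h3,
    h3 (le_sup_right (a := N₁) (IntermediateField.mem_adjoin_simple_self F a))⟩

omit [IsAlgClosed Ω] in
/-- A simple root of a polynomial over `N₁` is separable over `F`. -/
theorem isSeparable_of_simple (N₁ : IntermediateField F Ω) [Algebra.IsSeparable F N₁] (P : Polynomial Ω)
    (hP : ∀ i, P.coeff i ∈ N₁) {a : Ω} (h0 : P.eval a = 0) (h1 : P.derivative.eval a ≠ 0) :
    IsSeparable F a := by
  have h3 : P ∈ lifts (algebraMap N₁ Ω) := by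
    rw [lifts_iff_coeff_lifts]
    intro i
    exact ⟨⟨P.coeff i, hP i⟩, rfl⟩
  obtain ⟨Q, hQ⟩ := (mem_lifts P).1 h3
  have hQ0 : Q ≠ 0 := by
    rintro rfl
    rw [Polynomial.map_zero] at hQ
    rw [← hQ, derivative_zero, eval_zero] at h1
    exact h1 rfl
  have hQa : aeval a Q = 0 := by
    rw [aeval_def, ← eval_map, hQ, h0]
  have hint : IsIntegral N₁ a := isAlgebraic_iff_isIntegral.1 ⟨Q, hQ0, hQa⟩
  have h4 : IsSeparable N₁ a := by
    obtain ⟨q, hq⟩ := minpoly.dvd N₁ a hQa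
    have h5 : aeval a (minpoly N₁ a).derivative ≠ 0 := by
      intro h6
      apply h1
      rw [← hQ, derivative_map, eval_map, hq, derivative_mul, eval₂_add, eval₂_mul, eval₂_mul]
      rw [aeval_def] at h6
      have h7 := minpoly.aeval N₁ a
      rw [aeval_def] at h7
      rw [h6, h7, zero_mul, zero_mul, add_zero]
    rw [IsSeparable, separable_iff_derivative_ne_zero (minpoly.irreducible hint)]
    intro h6
    rw [h6, map_zero] at h5
    exact h5 rfl
  exact IsSeparable.of_algebra_isSeparable_of_isSeparable F h4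

end

/-! ## The localised integral closure is integrally closed -/

theorem exists_common_den {S : Subalgebra k Ω} (P : Polynomial Ω) (hP : ∀ i, P.coeff i ∈ locv v S) :
    ∃ y ∈ S, y ≠ 0 ∧ v y = 0 ∧ ∀ i, y * P.coeff i ∈ S := by
  classical
  choose a ha b hb hb0 hvb hab using hP
  refine ⟨∏ i ∈ Finset.range (P.natDegree + 1), b i, S.prod_mem fun i _ => hb i,
    (prod_val _ _ fun i _ => ⟨hb0 i, hvb i⟩).1, (prod_val _ _ fun i _ => ⟨hb0 i, hvb i⟩).2,
    fun i => ?_⟩
  by_cases hi : i ∈ Finset.range (P.natDegree + 1)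
  · rw [← Finset.prod_erase_mul _ _ hi, hab i, mul_assoc, mul_div_cancel₀ _ (hb0 i)]
    exact S.mul_mem (S.prod_mem fun j _ => hb j) (ha i)
  · rw [coeff_eq_zero_of_natDegree_lt (by
      rw [Finset.mem_range] at hi
      omega), mul_zero]
    exact S.zero_mem

theorem mem_locv_of_isIntegral {S : Subalgebra k Ω} {E : IntermediateField k Ω}
    (hS : ∀ f ∈ S, f ∈ E) (hn : ∀ f ∈ E, IsIntegral S f → f ∈ S) {a : Ω} (ha : a ∈ E)
    (hint : IsIntegral (locv v S) a) : a ∈ locv v S := by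
  obtain ⟨P, hm, hP, h0⟩ := exists_coeff_of_isIntegral hint
  obtain ⟨y, hy, hy0, hvy, hyP⟩ := exists_common_den P hP
  refine ⟨y * a, ?_, y, hy, hy0, hvy, ?_⟩
  · refine hn _ (mul_mem (hS y hy) ha) ?_
    refine isIntegral_of_coeff (P.scaleRoots y) ((monic_scaleRoots_iff y).2 hm) (fun i => ?_) ?_
    · rw [coeff_scaleRoots]
      rcases lt_trichotomy i P.natDegree with h | h | h
      · obtain ⟨m, hm⟩ : ∃ m, P.natDegree - i = m + 1 := ⟨P.natDegree - i - 1, by omega⟩
        rw [hm, pow_succ', ← mul_assoc, mul_comm (P.coeff i) y]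
        exact S.mul_mem (hyP i) (S.pow_mem hy m)
      · subst h
        rw [hm.coeff_natDegree, one_mul]
        exact S.pow_mem hy _
      · rw [coeff_eq_zero_of_natDegree_lt h, zero_mul]
        exact S.zero_mem
    · rw [scaleRoots_eval_mul, h0, mul_zero]
  · rw [mul_comm, mul_div_assoc, div_self hy0, mul_one]

theorem icl_normal {R : Subalgebra k Ω} {E : IntermediateField k Ω} {f : Ω} (hf : f ∈ E)
    (hint : IsIntegral (icl R E) f) : f ∈ icl R E := by
  refine ⟨hf, ?_⟩
  obtain ⟨P, hm, hP, h0⟩ := exists_coeff_of_isIntegral hint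
  obtain ⟨Q, hQm, hQ⟩ := exists_lift_monic (S := (integralClosure R Ω).restrictScalars k) P hm
    (fun i => (hP i).2)
  have h1 : IsIntegral (integralClosure R Ω) f := by
    refine ⟨Q, hQm, ?_⟩
    have h2 : eval₂ (algebraMap ((integralClosure R Ω).restrictScalars k) Ω) f Q = 0 := by
      rw [← eval_map, hQ, h0]
    exact h2
  exact isIntegral_trans f h1

/-- `ICl` is integrally closed. -/
theorem mem_ICl_of_isIntegral {R : Subalgebra k Ω} {E : IntermediateField k Ω} {a : Ω}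
    (ha : a ∈ E) (hint : IsIntegral (ICl v R E) a) : a ∈ ICl v R E :=
  mem_locv_of_isIntegral (S := icl R E) (E := E) (fun _ hf => hf.1)
    (fun _ hf h => icl_normal hf h) ha hint

/-! ## The structure theorem -/

section

variable [IsAlgClosed Ω] {R : Subalgebra k Ω} {F : IntermediateField k Ω}

/-- Simple roots of polynomials over `OH` are in `OH`, after an extension of `N`. -/
theorem exists_OH_root (hB : Base v R F) (hk : ∀ c : k, c ≠ 0 → v (algebraMap k Ω c) = 0)
    (hres : ∀ g : Ω, v.Ge 0 g → ∃ c : k, VPos v (g - algebraMap k Ω c))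
    {N : IntermediateField F Ω} [FiniteDimensional F N] [IsGalois F N] (P : Polynomial Ω) (hm : P.Monic)
    (hP : ∀ i, P.coeff i ∈ OH v R N (ALLO.decP v R F N)) {a : Ω} (h0 : P.eval a = 0)
    (h1 : P.derivative.eval a ≠ 0) (h2 : v (P.derivative.eval a) = 0) :
    ∃ N' : IntermediateField F Ω, FiniteDimensional F N' ∧ IsGalois F N' ∧ N ≤ N' ∧
      a ∈ OH v R N' (ALLO.decP v R F N') := by
  have hPN : ∀ i, P.coeff i ∈ N := by
    intro i
    obtain ⟨-, n, hn, -⟩ := mem_OH.1 (hP i)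
    rw [← hn]
    exact n.2
  obtain ⟨N', hfd, hgal, hN, haN⟩ := exists_galois_mem N (isSeparable_of_simple N P hPN h0 h1)
  refine ⟨N', hfd, hgal, hN, ?_⟩
  have hP' : ∀ i, P.coeff i ∈ OH v R N' (ALLO.decP v R F N') :=
    fun i => OH_le_of_le hB hk hres hN (hP i)
  set b : N' := ⟨a, haN⟩ with hb
  have hbICl : (b : Ω) ∈ ICl v R (N'.restrictScalars k) := by
    refine mem_ICl_of_isIntegral b.2 ?_
    exact isIntegral_of_coeff P hm (fun i => (mem_OH.1 (hP' i)).1) h0
  rw [mem_OH]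
  refine ⟨hbICl, b, rfl, fun s hs => ?_⟩
  refine fixed_of_root hB hres hs P (fun i => ⟨OH_nonneg hB (hP' i), ?_⟩) hbICl h0 h1 h2
  obtain ⟨-, n, hn, hfix⟩ := mem_OH.1 (hP' i)
  exact ⟨n, hn, hfix s hs⟩

/-- Finitely many elements of the rings `OH` are in one of them. -/
theorem exists_OH_of_finset (hB : Base v R F) (hk : ∀ c : k, c ≠ 0 → v (algebraMap k Ω c) = 0)
    (hres : ∀ g : Ω, v.Ge 0 g → ∃ c : k, VPos v (g - algebraMap k Ω c)) (T : Finset Ω)
    (hT : ∀ t ∈ T, ∃ N : IntermediateField F Ω, FiniteDimensional F N ∧ IsGalois F N ∧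
      t ∈ OH v R N (ALLO.decP v R F N)) :
    ∃ N : IntermediateField F Ω, FiniteDimensional F N ∧ IsGalois F N ∧
      ∀ t ∈ T, t ∈ OH v R N (ALLO.decP v R F N) := by
  classical
  induction T using Finset.induction_on with
  | empty =>
    refine ⟨⊥, inferInstance, inferInstance, fun t ht => ?_⟩
    exact absurd ht (Finset.notMem_empty t)
  | insert t T ht ih =>
    obtain ⟨N₁, h1, h2, h3⟩ := ih fun s hs => hT s (Finset.mem_insert_of_mem hs)
    obtain ⟨N₂, h4, h5, h6⟩ := hT t (Finset.mem_insert_self t T)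
    obtain ⟨N, h7, h8, h9, h10⟩ := exists_galois_sup N₁ N₂
    refine ⟨N, h7, h8, fun s hs => ?_⟩
    rcases Finset.mem_insert.1 hs with rfl | hs
    · exact OH_le_of_le hB hk hres h10 h6
    · exact OH_le_of_le hB hk hres h9 (h3 s hs)

/-- The union of the rings `OH`. -/
def UO (hB : Base v R F) (hk : ∀ c : k, c ≠ 0 → v (algebraMap k Ω c) = 0)
    (hres : ∀ g : Ω, v.Ge 0 g → ∃ c : k, VPos v (g - algebraMap k Ω c)) : Subalgebra k Ω where
  carrier := {f | ∃ N : IntermediateField F Ω, FiniteDimensional F N ∧ IsGalois F N ∧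
    f ∈ OH v R N (ALLO.decP v R F N)}
  mul_mem' := by
    rintro f g ⟨N₁, h1, h2, h3⟩ ⟨N₂, h4, h5, h6⟩
    obtain ⟨N, h7, h8, h9, h10⟩ := exists_galois_sup N₁ N₂
    exact ⟨N, h7, h8, Subalgebra.mul_mem _ (OH_le_of_le hB hk hres h9 h3)
      (OH_le_of_le hB hk hres h10 h6)⟩
  add_mem' := by
    rintro f g ⟨N₁, h1, h2, h3⟩ ⟨N₂, h4, h5, h6⟩
    obtain ⟨N, h7, h8, h9, h10⟩ := exists_galois_sup N₁ N₂
    exact ⟨N, h7, h8, Subalgebra.add_mem _ (OH_le_of_le hB hk hres h9 h3)
      (OH_le_of_le hB hk hres h10 h6)⟩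
  algebraMap_mem' := fun c => ⟨⊥, inferInstance, inferInstance, Subalgebra.algebraMap_mem _ c⟩

theorem UO_hcl (hB : Base v R F) (hk : ∀ c : k, c ≠ 0 → v (algebraMap k Ω c) = 0)
    (hres : ∀ g : Ω, v.Ge 0 g → ∃ c : k, VPos v (g - algebraMap k Ω c)) :
    HCl v (UO hB hk hres) where
  inv := by
    rintro f ⟨N, h1, h2, h3⟩ h0 hv
    exact ⟨N, h1, h2, OH_inv h3 h0 hv⟩
  root := by
    intro P hm hP a ha h0 h1 h2
    classical
    obtain ⟨N, h3, h4, h5⟩ := exists_OH_of_finset hB hk hres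
      ((Finset.range (P.natDegree + 1)).image fun i => P.coeff i) (by
        intro t ht
        obtain ⟨i, -, rfl⟩ := Finset.mem_image.1 ht
        exact hP i)
    have h6 : ∀ i, P.coeff i ∈ OH v R N (ALLO.decP v R F N) := by
      intro i
      by_cases hi : i ∈ Finset.range (P.natDegree + 1)
      · exact h5 _ (Finset.mem_image_of_mem _ hi)
      · rw [coeff_eq_zero_of_natDegree_lt (by
          rw [Finset.mem_range] at hi
          omega)]
        exact Subalgebra.zero_mem _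
    obtain ⟨N', h7, h8, -, h9⟩ := exists_OH_root hB hk hres P hm h6 h0 h1 h2
    exact ⟨N', h7, h8, h9⟩

omit [IsAlgClosed Ω] in
/-- The rings `OH` are in the henselization. -/
theorem OH_le_Hz (hB : Base v R F) (hk : ∀ c : k, c ≠ 0 → v (algebraMap k Ω c) = 0)
    (hres : ∀ g : Ω, v.Ge 0 g → ∃ c : k, VPos v (g - algebraMap k Ω c))
    {N : IntermediateField F Ω} [FiniteDimensional F N] [IsGalois F N]
    {H : Subgroup (N ≃ₐ[F] N)} (hH : ALLO.decP v R F N ≤ H) : OH v R N H ≤ Hz v R := by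
  obtain ⟨θ, P, hm, hP, h0, h1, h2, h3⟩ := OH_et (N := N) hB hk hres hH
  have hcl := ALLY.hz_hcl v R
  have hle := ALLY.le_hz v R
  rw [h3]
  refine locv_le ?_ fun f hf h0 hv => hcl.inv f hf h0 hv
  rw [Algebra.adjoin_le_iff]
  rintro f (hf | hf)
  · exact hle hf
  · rw [Set.mem_singleton_iff] at hf
    subst hf
    refine hcl.root P hm (fun i => hle (hP i)) f ?_ h0 h1 h2
    exact ge_int hB.nonneg (isIntegral_of_coeff P hm hP h0)

/-- The structure theorem. -/
theorem mem_Hz_iff (hB : Base v R F) (hk : ∀ c : k, c ≠ 0 → v (algebraMap k Ω c) = 0)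
    (hres : ∀ g : Ω, v.Ge 0 g → ∃ c : k, VPos v (g - algebraMap k Ω c)) {f : Ω} :
    f ∈ Hz v R ↔ ∃ N : IntermediateField F Ω, FiniteDimensional F N ∧ IsGalois F N ∧
      f ∈ OH v R N (ALLO.decP v R F N) := by
  constructor
  · intro hf
    have h1 : Hz v R ≤ UO hB hk hres := by
      refine ALLY.hz_le ?_ (UO_hcl hB hk hres)
      intro g hg
      exact ⟨⊥, inferInstance, inferInstance, le_OH hB hg⟩
    exact h1 hf
  · rintro ⟨N, h1, h2, h3⟩
    exact OH_le_Hz hB hk hres le_rfl h3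

/-- The structure theorem, for finitely many elements. -/
theorem exists_OH (hB : Base v R F) (hk : ∀ c : k, c ≠ 0 → v (algebraMap k Ω c) = 0)
    (hres : ∀ g : Ω, v.Ge 0 g → ∃ c : k, VPos v (g - algebraMap k Ω c)) (T : Finset Ω)
    (hT : ∀ t ∈ T, t ∈ Hz v R) :
    ∃ N : IntermediateField F Ω, FiniteDimensional F N ∧ IsGalois F N ∧
      ∀ t ∈ T, t ∈ OH v R N (ALLO.decP v R F N) :=
  exists_OH_of_finset hB hk hres T fun t ht => (mem_Hz_iff hB hk hres).1 (hT t ht)

end

end Pool.Agent.ALLh64
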